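import Pool.Agent.X180.GM.S3

/-!
The action of the unit quaternions on the unit sphere of `ℍ ⊕ ℍ ⊕ Im ℍ`.
-/

set_option autoImplicit false
set_option linter.unusedSectionVars false

namespace Pool.Agent.X180.GM

open scoped ContDiff Manifold InnerProductSpace Topology Quaternion
open Pool.Agent.X180.NC Metric Module

/-- `ℍ³`. -/
abbrev P : Type := PiLp 2 (fun _ : Fin 3 => ℍ[ℝ])

/-- The real part of the last coordinate. -/
noncomputable def reL : P →ₗ[ℝ] ℝ where
  toFun v := (v 2).re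
  map_add' a b := by simp
  map_smul' c a := by simp

/-- `ℍ ⊕ ℍ ⊕ Im ℍ`. -/
noncomputable def K : Submodule ℝ P := LinearMap.ker reL

theorem mem_K {v : P} : v ∈ K ↔ (v 2).re = 0 := Iff.rfl

theorem finrank_P : finrank ℝ P = 12 := by
  rw [(WithLp.linearEquiv 2 ℝ (Fin 3 → ℍ[ℝ])).finrank_eq, Module.finrank_pi_fintype]
  simp [Quaternion.finrank_eq_four]

theorem finrank_K : finrank ℝ K = 10 + 1 := by
  have h1 := LinearMap.finrank_range_add_finrank_ker reL
  have h2 : LinearMap.range reL = ⊤ := by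
    rw [LinearMap.range_eq_top]
    intro c
    refine ⟨WithLp.toLp 2 (fun _ => (c : ℍ[ℝ])), ?_⟩
    simp [reL]
  rw [h2, finrank_top, finrank_P, finrank_self] at h1
  change finrank ℝ (LinearMap.ker reL) = _
  omega

instance factK : Fact (finrank ℝ K = 10 + 1) := ⟨finrank_K⟩

/-- The linear action of a quaternion. -/
noncomputable def act (q : ℍ[ℝ]) (v : P) : P :=
  WithLp.toLp 2 ![q * v 0, q * v 1, q * v 2 * star q]

theorem act_zero' (q : ℍ[ℝ]) (v : P) : act q v 0 = q * v 0 := rfl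
theorem act_one' (q : ℍ[ℝ]) (v : P) : act q v 1 = q * v 1 := rfl
theorem act_two' (q : ℍ[ℝ]) (v : P) : act q v 2 = q * v 2 * star q := rfl

theorem P_ext {v w : P} (h0 : v 0 = w 0) (h1 : v 1 = w 1) (h2 : v 2 = w 2) : v = w := by
  ext1 i
  fin_cases i
  · exact h0
  · exact h1
  · exact h2

theorem act_mul (q r : ℍ[ℝ]) (v : P) : act (q * r) v = act q (act r v) := by
  apply P_ext
  · rw [act_zero', act_zero', act_zero', mul_assoc]
  · rw [act_one', act_one', act_one', mul_assoc]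
  · rw [act_two', act_two', act_two', star_mul]
    simp only [mul_assoc]

theorem act_one (v : P) : act 1 v = v := by
  apply P_ext
  · rw [act_zero', one_mul]
  · rw [act_one', one_mul]
  · rw [act_two', one_mul, star_one, mul_one]

theorem norm_act {q : ℍ[ℝ]} (hq : ‖q‖ = 1) (v : P) : ‖act q v‖ = ‖v‖ := by
  have h : ‖act q v‖ ^ 2 = ‖v‖ ^ 2 := by
    rw [PiLp.norm_sq_eq_of_L2, PiLp.norm_sq_eq_of_L2, Fin.sum_univ_three, Fin.sum_univ_three,
      act_zero', act_one', act_two']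
    simp only [norm_mul, hq, norm_star, one_mul, mul_one]
  exact (pow_left_inj₀ (norm_nonneg _) (norm_nonneg _) two_ne_zero).mp h

theorem act_mem {q : ℍ[ℝ]} (hq : ‖q‖ = 1) {v : P} (hv : v ∈ K) : act q v ∈ K := by
  rw [mem_K] at hv ⊢
  rw [act_two']
  have hn : q.re ^ 2 + q.imI ^ 2 + q.imJ ^ 2 + q.imK ^ 2 = 1 := by
    have h1 := Quaternion.normSq_eq_norm_mul_self q
    rw [hq, Quaternion.normSq_def'] at h1
    linarith
  simp only [Quaternion.re_mul, Quaternion.imI_mul, Quaternion.imJ_mul, Quaternion.imK_mul,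
    Quaternion.re_star, Quaternion.imI_star, Quaternion.imJ_star, Quaternion.imK_star, hv]
  ring

theorem contDiff_act : ContDiff ℝ ω (fun z : ℍ[ℝ] × P => act z.1 z.2) := by
  have hc : ∀ i : Fin 3, ContDiff ℝ ω (fun z : ℍ[ℝ] × P => z.2 i) := fun i =>
    (contDiff_piLp_apply 2).comp contDiff_snd
  have hs : ContDiff ℝ ω (fun z : ℍ[ℝ] × P => star z.1) :=
    starH.contDiff.comp contDiff_fst
  rw [contDiff_piLp 2]
  intro i
  fin_cases i
  · exact contDiff_fst.mul (hc 0)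
  · exact contDiff_fst.mul (hc 1)
  · exact (contDiff_fst.mul (hc 2)).mul hs

/-- The unit sphere `S¹⁰` of `ℍ ⊕ ℍ ⊕ Im ℍ`. -/
abbrev S10 : Type := sphere (0 : K) 1

theorem S10.norm_coe (x : S10) : ‖(x : K)‖ = 1 := by
  have := x.2
  rwa [mem_sphere_zero_iff_norm] at this

/-- The action on the subspace. -/
noncomputable def actK (q : S3) (v : K) : K := ⟨act (q : ℍ[ℝ]) v, act_mem q.norm_coe v.2⟩

theorem norm_actK (q : S3) (v : K) : ‖actK q v‖ = ‖v‖ := norm_act q.norm_coe v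

noncomputable instance : MulAction S3 S10 where
  smul q x := ⟨actK q x, by
    rw [mem_sphere_zero_iff_norm, norm_actK, S10.norm_coe]⟩
  one_smul x := by
    apply Subtype.ext
    apply Subtype.ext
    exact act_one _
  mul_smul q r x := by
    apply Subtype.ext
    apply Subtype.ext
    exact act_mul _ _ _

theorem coe_smul (q : S3) (x : S10) : ((q • x : S10) : K) = actK q x := rfl

theorem coe_coe_smul (q : S3) (x : S10) : (((q • x : S10) : K) : P) = act q ((x : K) : P) := rfl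

/-- The linear isometry of `K` given by a unit quaternion. -/
noncomputable def rhoK (q : S3) : K →ₗᵢ[ℝ] K where
  toFun v := actK q v
  map_add' a b := by
    apply Subtype.ext
    apply P_ext
    · exact mul_add _ _ _
    · exact mul_add _ _ _
    · change (q : ℍ[ℝ]) * ((a : P) 2 + (b : P) 2) * star (q : ℍ[ℝ]) = _
      rw [mul_add, add_mul]
      rfl
  map_smul' c a := by
    apply Subtype.ext
    apply P_ext
    · change (q : ℍ[ℝ]) * (c • (a : P) 0) = c • ((q : ℍ[ℝ]) * (a : P) 0)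
      rw [mul_smul_comm]
    · change (q : ℍ[ℝ]) * (c • (a : P) 1) = c • ((q : ℍ[ℝ]) * (a : P) 1)
      rw [mul_smul_comm]
    · change (q : ℍ[ℝ]) * (c • (a : P) 2) * star (q : ℍ[ℝ]) = _
      rw [mul_smul_comm, smul_mul_assoc]
      rfl
  norm_map' v := norm_actK q v

/-- The model spaces. -/
abbrev E3 : Type := EuclideanSpace ℝ (Fin 3)

/-- The model spaces. -/
abbrev E10 : Type := EuclideanSpace ℝ (Fin 10)

theorem smooth_val : ContMDiff 𝓘(ℝ, E10) 𝓘(ℝ, K) ω (fun x : S10 => (x : K)) :=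
  contMDiff_coe_sphere

theorem smooth_action : SmoothAction E3 E10 S3 S10 := by
  have h1 : ContMDiff (𝓘(ℝ, E3).prod 𝓘(ℝ, E10)) 𝓘(ℝ, ℍ[ℝ] × P) ω
      (fun z : S3 × S10 => ((z.1 : ℍ[ℝ]), ((z.2 : K) : P))) := by
    have h2 : ContMDiff (𝓘(ℝ, E3).prod 𝓘(ℝ, E10)) 𝓘(ℝ, ℍ[ℝ]) ω
      (fun z : S3 × S10 => (z.1 : ℍ[ℝ])) := contMDiff_coe_sphere.comp contMDiff_fst
    have h3 : ContMDiff (𝓘(ℝ, E3).prod 𝓘(ℝ, E10)) 𝓘(ℝ, K) ω
      (fun z : S3 × S10 => (z.2 : K)) := contMDiff_coe_sphere.comp contMDiff_snd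
    have h4 : ContMDiff (𝓘(ℝ, E3).prod 𝓘(ℝ, E10)) 𝓘(ℝ, P) ω
      (fun z : S3 × S10 => ((z.2 : K) : P)) := K.subtypeL.contDiff.contMDiff.comp h3
    exact h2.prodMk_space h4
  have h5 : ContMDiff (𝓘(ℝ, E3).prod 𝓘(ℝ, E10)) 𝓘(ℝ, P) ω
      (fun z : S3 × S10 => act (z.1 : ℍ[ℝ]) ((z.2 : K) : P)) :=
    contDiff_act.contMDiff.comp h1
  have h6 : ContMDiff (𝓘(ℝ, E3).prod 𝓘(ℝ, E10)) 𝓘(ℝ, K) ω
      (fun z : S3 × S10 => K.orthogonalProjectionOnto (act (z.1 : ℍ[ℝ]) ((z.2 : K) : P))) :=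
    K.orthogonalProjectionOnto.contDiff.contMDiff.comp h5
  have h7 : (fun z : S3 × S10 => K.orthogonalProjectionOnto (act (z.1 : ℍ[ℝ]) ((z.2 : K) : P))) =
      fun z : S3 × S10 => actK z.1 z.2 := by
    funext z
    exact K.orthogonalProjectionOnto_mem_subspace_eq_self (actK z.1 z.2)
  rw [h7] at h6
  have h8 : ∀ z : S3 × S10, actK z.1 z.2 ∈ sphere (0 : K) 1 := fun z => (z.1 • z.2).2
  have h9 := ContMDiff.codRestrict_sphere (n := 10) h6 h8
  exact h9.of_le (by exact le_top)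

end Pool.Agent.X180.GM
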