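import Pool.Agent.X180.NC.Defs

/-!
Riemannian metrics on manifolds, positive Ricci curvature, smooth actions of compact Lie groups,
principal and singular orbits, cohomogeneity.
-/

set_option autoImplicit false

namespace Pool.Agent.X180.GM

open scoped ContDiff Manifold InnerProductSpace Topology
open Pool.Agent.X180.NC

section Metric

variable (V M : Type*) [NormedAddCommGroup V] [NormedSpace ℝ V] [TopologicalSpace M]
  [ChartedSpace V M]

/-- A smooth Riemannian metric on the manifold `M` (modelled on `V`): an inner product on every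
tangent space, smooth in every chart. -/
structure RMetric where
  /-- the inner product of the tangent vectors `u, v` at `x` -/
  inner : (x : M) → TangentSpace 𝓘(ℝ, V) x → TangentSpace 𝓘(ℝ, V) x → ℝ
  add_left : ∀ x u u' v, inner x (u + u') v = inner x u v + inner x u' v
  smul_left : ∀ x (c : ℝ) u v, inner x (c • u) v = c * inner x u v
  symm : ∀ x u v, inner x u v = inner x v u
  pos : ∀ x u, u ≠ 0 → 0 < inner x u u
  smooth : ∀ φ ∈ atlas V M, ∀ u v : V, ContDiffOn ℝ ∞ (fun y => inner (φ.symm y)
    (mfderiv 𝓘(ℝ, V) 𝓘(ℝ, V) φ.symm y u) (mfderiv 𝓘(ℝ, V) 𝓘(ℝ, V) φ.symm y v)) φ.target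

variable {V M}

/-- The metric `g` in the chart `φ`. -/
noncomputable def RMetric.inChart (g : RMetric V M) (φ : OpenPartialHomeomorph M V) :
    V → V → V → ℝ := fun y u v => g.inner (φ.symm y)
  (mfderiv 𝓘(ℝ, V) 𝓘(ℝ, V) φ.symm y u) (mfderiv 𝓘(ℝ, V) 𝓘(ℝ, V) φ.symm y v)

/-- The metric has positive Ricci curvature: `Ric(u, u) > 0` for every nonzero tangent vector `u`
(`Ric` is computed in a chart, with the trace in any orthonormal basis `e`). -/
def RMetric.PosRicci (g : RMetric V M) : Prop :=
  ∀ φ ∈ atlas V M, ∀ y ∈ φ.target, ∀ e : Fin (Module.finrank ℝ V) → V,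
    IsFrame (g.inChart φ) y e → ∀ u, u ≠ 0 → 0 < ric (g.inChart φ) y e u

/-- The group `G` acts by isometries of the metric `g`. -/
def RMetric.Invariant (G : Type*) [SMul G M] (g : RMetric V M) : Prop :=
  ∀ (a : G) (x : M) (u v : TangentSpace 𝓘(ℝ, V) x),
    g.inner (a • x) (mfderiv 𝓘(ℝ, V) 𝓘(ℝ, V) (fun z => a • z) x u)
      (mfderiv 𝓘(ℝ, V) 𝓘(ℝ, V) (fun z => a • z) x v) = g.inner x u v

end Metric

section Action

variable (VG VM G : Type*) [NormedAddCommGroup VG] [NormedSpace ℝ VG]
  [NormedAddCommGroup VM] [NormedSpace ℝ VM] [Group G] [TopologicalSpace G] [ChartedSpace VG G]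
  {M : Type*} [TopologicalSpace M] [ChartedSpace VM M] [MulAction G M]

/-- The dimension of the orbit of `x`: the rank at `1` of the differential of the orbit map
`G → M`, `g ↦ g • x`. -/
noncomputable def orbitDim (x : M) : ℕ :=
  Module.finrank ℝ (LinearMap.range
    (mfderiv 𝓘(ℝ, VG) 𝓘(ℝ, VM) (fun g : G => g • x) 1).toLinearMap)

omit [TopologicalSpace G] [ChartedSpace VG G] [TopologicalSpace M] [ChartedSpace VM M] in
/-- The orbit of `x` is principal: up to conjugation, the isotropy group of `x` is contained in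
every isotropy group. -/
def IsPrincipal (x : M) : Prop :=
  ∀ y : M, ∃ g : G, ∀ h : G, h • x = x → (g * h * g⁻¹) • y = y

/-- The orbit of `x` is singular: its dimension is smaller than that of a principal orbit. -/
def IsSingular (x : M) : Prop :=
  ∃ p : M, IsPrincipal G p ∧ orbitDim VG VM G x < orbitDim VG VM G p

variable (M)

/-- There is exactly one singular orbit, and there are only finitely many non-principal orbits. -/
def SingleSingularOrbit : Prop :=
  (∃ x₀ : M, IsSingular VG VM G x₀ ∧
    ∀ x : M, IsSingular VG VM G x → x ∈ MulAction.orbit G x₀) ∧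
  {O : Set M | ∃ x : M, ¬ IsPrincipal G x ∧ O = MulAction.orbit G x}.Finite

/-- The cohomogeneity (the codimension of the principal orbits) is greater than `k`. -/
def CohomogeneityGT (k : ℕ) : Prop :=
  ∀ p : M, IsPrincipal G p → orbitDim VG VM G p + k < Module.finrank ℝ VM

/-- The action of `G` on `M` is smooth. -/
def SmoothAction : Prop :=
  ContMDiff (𝓘(ℝ, VG).prod 𝓘(ℝ, VM)) 𝓘(ℝ, VM) ∞ (fun q : G × M => q.1 • q.2)

/-- `G` is a compact Lie group. -/
def IsCompactLieGroup : Prop :=
  LieGroup 𝓘(ℝ, VG) ∞ G ∧ CompactSpace G ∧ T2Space G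

end Action

/-- `M` is a closed (compact, without boundary) connected smooth manifold. -/
def IsClosedManifold (VM M : Type*) [NormedAddCommGroup VM] [NormedSpace ℝ VM]
    [TopologicalSpace M] [ChartedSpace VM M] : Prop :=
  IsManifold 𝓘(ℝ, VM) ∞ M ∧ CompactSpace M ∧ T2Space M ∧ ConnectedSpace M

end Pool.Agent.X180.GM
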