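import Pool.Agent.X180.GM.Round

/-!
The metric induced by an immersion; the round metric on a sphere.
-/

set_option autoImplicit false
set_option linter.unusedSectionVars false

namespace Pool.Agent.X180.GM

open scoped ContDiff Manifold InnerProductSpace Topology
open Pool.Agent.X180.NC

variable {V W : Type*} [NormedAddCommGroup V] [InnerProductSpace ℝ V] [FiniteDimensional ℝ V]
  [CompleteSpace V] [NormedAddCommGroup W] [InnerProductSpace ℝ W]
  [FiniteDimensional ℝ W] [CompleteSpace W]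
  {M : Type*} [TopologicalSpace M] [ChartedSpace V M] [IsManifold 𝓘(ℝ, V) ∞ M]

theorem rep_fderiv' {f : M → W} (hf : ContMDiff 𝓘(ℝ, V) 𝓘(ℝ, W) ∞ f)
    {φ : OpenPartialHomeomorph M V} (hφ : φ ∈ atlas V M) {y : V} (hy : y ∈ φ.target) (u : V) :
    fderiv ℝ (rep f φ) y u =
      mf (V := V) f (φ.symm y) (mfderiv 𝓘(ℝ, V) 𝓘(ℝ, V) φ.symm y u) := by
  have hm := mdifferentiable_of_mem_atlas (I := 𝓘(ℝ, V)) hφ
  have hms := hm.symm
  have h1 : MDifferentiableAt 𝓘(ℝ, V) 𝓘(ℝ, V) φ.symm y := hms.mdifferentiableAt hy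
  have h2 : MDifferentiableAt 𝓘(ℝ, V) 𝓘(ℝ, W) f (φ.symm y) :=
    (hf.contMDiffAt).mdifferentiableAt (by norm_num)
  have h3 := mfderiv_comp y h2 h1
  rw [← mfderiv_eq_fderiv]
  exact congrArg (fun L => L u) h3

/-- The metric induced by an immersion. -/
noncomputable def induced (f : M → W) (hf : IsSmoothImmersion V f) : RMetric V M where
  inner x u v := ⟪mf (V := V) f x u, mf (V := V) f x v⟫_ℝ
  add_left x u u' v := by
    have : mf (V := V) f x (u + u') = mf (V := V) f x u + mf (V := V) f x u' := map_add _ _ _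
    rw [this, inner_add_left]
  smul_left x c u v := by
    have : mf (V := V) f x (c • u) = c • mf (V := V) f x u := map_smul _ _ _
    rw [this, real_inner_smul_left]
  symm x u v := real_inner_comm _ _
  pos x u hu := by
    rw [real_inner_self_eq_norm_sq]
    have : mf (V := V) f x u ≠ 0 := by
      intro h
      apply hu
      apply hf.2 x
      rw [map_zero]
      exact h
    have := norm_pos_iff.mpr this
    positivity
  smooth φ hφ u v := by
    have h1 : ContDiffOn ℝ ∞ (fun y => ⟪fderiv ℝ (rep f φ) y u, fderiv ℝ (rep f φ) y v⟫_ℝ)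
        φ.target := by
      intro y hy
      have h2 := cd1 (rep_contDiffAt hf.1 hφ hy)
      exact ((h2.clm_apply contDiffAt_const).inner ℝ
        (h2.clm_apply contDiffAt_const)).contDiffWithinAt
    refine h1.congr fun y hy => ?_
    rw [rep_fderiv' hf.1 hφ hy, rep_fderiv' hf.1 hφ hy]

theorem induced_inChart {f : M → W} (hf : IsSmoothImmersion V f)
    {φ : OpenPartialHomeomorph M V} (hφ : φ ∈ atlas V M) {y : V} (hy : y ∈ φ.target) :
    (induced f hf).inChart φ y = Gp 0 (rep f φ) y := by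
  funext u v
  rw [Gp_zero_apply, rep_fderiv' hf.1 hφ hy, rep_fderiv' hf.1 hφ hy]
  rfl

theorem induced_posRicci {f : M → W} (hf : IsSmoothImmersion V f) (hS : ∀ x, ‖f x‖ = 1)
    (hdim : Module.finrank ℝ W = Module.finrank ℝ V + 1) (h2 : 2 ≤ Module.finrank ℝ V) :
    (induced f hf).PosRicci := by
  intro φ hφ y hy e he u hu
  have hev : (induced f hf).inChart φ =ᶠ[𝓝 y] Gp 0 (rep f φ) := by
    filter_upwards [φ.open_target.mem_nhds hy] with z hz
    exact induced_inChart hf hφ hz
  have hc := curv_congr hev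
  have h0 := induced_inChart hf hφ hy
  have hric : ric ((induced f hf).inChart φ) y e u = ric (Gp 0 (rep f φ)) y e u := by
    unfold ric
    rw [hc, h0]
  have he' : IsFrame (Gp 0 (rep f φ)) y e := by
    intro i j
    rw [← he i j, h0]
  have hinj := rep_inj hf.1 hf.2 hφ hy
  rw [hric, ric_sphere (rep_ev hf.1 hφ hy) hinj (Filter.Eventually.of_forall fun x => hS _)
    hdim rfl he' u]
  have h3 : fderiv ℝ (rep f φ) y u ≠ 0 := by
    intro h
    exact hu (hinj (by rw [h, map_zero]))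
  have h4 : 0 < ⟪fderiv ℝ (rep f φ) y u, fderiv ℝ (rep f φ) y u⟫_ℝ :=
    real_inner_self_pos.mpr h3
  have h5 : (1 : ℝ) < (Module.finrank ℝ V : ℝ) := by
    exact_mod_cast h2
  exact mul_pos (by linarith) h4

/-- Invariance of the induced metric under an action which is linear isometric in `W`. -/
theorem induced_invariant {G : Type*} [SMul G M] {f : M → W} (hf : IsSmoothImmersion V f)
    (hsm : ∀ g : G, ContMDiff 𝓘(ℝ, V) 𝓘(ℝ, V) ∞ (fun x : M => g • x))
    (ρ : G → W →ₗᵢ[ℝ] W) (hρ : ∀ (g : G) (x : M), f (g • x) = ρ g (f x)) :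
    (induced f hf).Invariant G := by
  intro a x u v
  have key : ∀ w : TangentSpace 𝓘(ℝ, V) x, mf (V := V) f (a • x)
      (mfderiv 𝓘(ℝ, V) 𝓘(ℝ, V) (fun z => a • z) x w) = ρ a (mf (V := V) f x w) := by
    intro w
    have h1 : MDifferentiableAt 𝓘(ℝ, V) 𝓘(ℝ, V) (fun z : M => a • z) x :=
      ((hsm a).contMDiffAt).mdifferentiableAt (by norm_num)
    have h2 : ∀ z, MDifferentiableAt 𝓘(ℝ, V) 𝓘(ℝ, W) f z := fun z =>
      (hf.1.contMDiffAt).mdifferentiableAt (by norm_num)
    have h3 := mfderiv_comp x (h2 (a • x)) h1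
    have h4 : f ∘ (fun z : M => a • z) = (ρ a) ∘ f := by
      funext z
      exact hρ a z
    have h5 : MDifferentiableAt 𝓘(ℝ, W) 𝓘(ℝ, W) (ρ a) (f x) :=
      (ρ a).toContinuousLinearMap.differentiableAt.mdifferentiableAt
    have h6 := mfderiv_comp x h5 (h2 x)
    rw [h4, h6] at h3
    have h7 : mfderiv 𝓘(ℝ, W) 𝓘(ℝ, W) (ρ a) (f x) = (ρ a).toContinuousLinearMap := by
      rw [mfderiv_eq_fderiv]
      exact (ρ a).toContinuousLinearMap.fderiv
    rw [h7] at h3
    exact (congrArg (fun L => L w) h3).symm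
  change ⟪mf (V := V) f (a • x) _, mf (V := V) f (a • x) _⟫_ℝ = ⟪mf (V := V) f x u, mf (V := V) f x v⟫_ℝ
  rw [key u, key v]
  exact (ρ a).inner_map_map _ _

end Pool.Agent.X180.GM
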