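import Pool.Agent.X180.GM.Orbits

/-!
Dimensions of the orbits of the action of the unit quaternions on `S¹⁰`.
-/

set_option autoImplicit false
set_option linter.unusedSectionVars false

namespace Pool.Agent.X180.GM

open scoped ContDiff Manifold InnerProductSpace Topology Quaternion
open Pool.Agent.X180.NC Metric Module

theorem smooth_orbit (x : S10) : ContMDiff 𝓘(ℝ, E3) 𝓘(ℝ, E10) ∞ (fun g : S3 => g • x) :=
  ContMDiff.comp (g := fun q : S3 × S10 => q.1 • q.2) (f := fun g : S3 => (g, x))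
    smooth_action (contMDiff_id.prodMk contMDiff_const)

/-- The inclusion `S¹⁰ → ℍ³`. -/
noncomputable def jP (y : S10) : P := ((y : K) : P)

theorem smooth_jP : ContMDiff 𝓘(ℝ, E10) 𝓘(ℝ, P) ∞ jP :=
  (K.subtypeL.contDiff.contMDiff.comp smooth_val).of_le (by exact le_top)

theorem inj_jP (y : S10) : Function.Injective (mfderiv 𝓘(ℝ, E10) 𝓘(ℝ, P) jP y) := by
  have h1 : MDifferentiableAt 𝓘(ℝ, E10) 𝓘(ℝ, K) (fun x : S10 => (x : K)) y :=
    (smooth_val.contMDiffAt).mdifferentiableAt (by norm_num)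
  have h2 : MDifferentiableAt 𝓘(ℝ, K) 𝓘(ℝ, P) K.subtypeL (y : K) :=
    K.subtypeL.differentiableAt.mdifferentiableAt
  have h3 := mfderiv_comp y h2 h1
  have h4 : mfderiv 𝓘(ℝ, K) 𝓘(ℝ, P) K.subtypeL (y : K) = K.subtypeL := by
    rw [mfderiv_eq_fderiv]
    exact K.subtypeL.fderiv
  rw [h4] at h3
  have h5 : jP = (K.subtypeL : K → P) ∘ (fun x : S10 => (x : K)) := rfl
  rw [h5, h3]
  have h6 : Function.Injective (mfderiv 𝓘(ℝ, E10) 𝓘(ℝ, K) (fun x : S10 => (x : K)) y) :=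
    mfderiv_coe_sphere_injective y
  exact (Subtype.val_injective).comp h6

/-- The derivative of the inclusion `S¹⁰ → ℍ³`. -/
noncomputable def dj (y : S10) : E10 →L[ℝ] P := mfderiv 𝓘(ℝ, E10) 𝓘(ℝ, P) jP y

theorem dj_inj (y : S10) : Function.Injective (dj y) := inj_jP y

/-- The derivative at `1` of the inclusion of the unit quaternions. -/
noncomputable def dcoe : E3 →L[ℝ] ℍ[ℝ] :=
  mfderiv 𝓘(ℝ, E3) 𝓘(ℝ, ℍ[ℝ]) (fun q : S3 => (q : ℍ[ℝ])) 1

theorem dcoe_inj : Function.Injective dcoe := mfderiv_coe_sphere_injective (1 : S3)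

theorem dcoe_surj {w : ℍ[ℝ]} (hw : w.re = 0) : ∃ h, dcoe h = w := by
  have h1 := range_mfderiv_coe_sphere (n := 3) (1 : S3)
  have h2 : w ∈ (Submodule.span ℝ {((1 : S3) : ℍ[ℝ])})ᗮ := by
    rw [Submodule.mem_orthogonal_singleton_iff_inner_right]
    change ⟪(1 : ℍ[ℝ]), w⟫_ℝ = 0
    rw [Quaternion.inner_def]
    simp [hw]
  rw [← h1] at h2
  obtain ⟨h, hh⟩ := h2
  exact ⟨h, hh⟩

/-- The derivative of the orbit map. -/
noncomputable def dorb (x : S10) : E3 →L[ℝ] E10 :=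
  mfderiv 𝓘(ℝ, E3) 𝓘(ℝ, E10) (fun g : S3 => g • x) 1

theorem orbitDim_eq (x : S10) :
    orbitDim E3 E10 S3 x = finrank ℝ (LinearMap.range (dorb x).toLinearMap) := rfl

theorem diff_act (X : P) (q : ℍ[ℝ]) : DifferentiableAt ℝ (fun q => act q X) q := by
  have h1 : ContDiff ℝ ω (fun q : ℍ[ℝ] => act q X) :=
    contDiff_act.comp (contDiff_id.prodMk contDiff_const)
  exact (h1.differentiable (by simp)).differentiableAt

theorem dorb_eq (x : S10) (h : E3) :
    dj ((1 : S3) • x) (dorb x h) =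
      fderiv ℝ (fun q => act q ((x : K) : P)) 1 (dcoe h) := by
  have h1 : MDifferentiableAt 𝓘(ℝ, E3) 𝓘(ℝ, E10) (fun g : S3 => g • x) 1 :=
    ((smooth_orbit x).contMDiffAt).mdifferentiableAt (by norm_num)
  have h2 : MDifferentiableAt 𝓘(ℝ, E10) 𝓘(ℝ, P) jP ((1 : S3) • x) :=
    (smooth_jP.contMDiffAt).mdifferentiableAt (by norm_num)
  have h3 := mfderiv_comp (1 : S3) h2 h1
  have h4 : MDifferentiableAt 𝓘(ℝ, E3) 𝓘(ℝ, ℍ[ℝ]) (fun q : S3 => (q : ℍ[ℝ])) 1 :=
    ((contMDiff_coe_sphere (m := ω) (n := 3)).contMDiffAt).mdifferentiableAt (by norm_num)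
  have h5 : MDifferentiableAt 𝓘(ℝ, ℍ[ℝ]) 𝓘(ℝ, P) (fun q => act q ((x : K) : P))
      ((1 : S3) : ℍ[ℝ]) := (diff_act _ _).mdifferentiableAt
  have h6 := mfderiv_comp (1 : S3) h5 h4
  have h7 : jP ∘ (fun g : S3 => g • x) =
      (fun q => act q ((x : K) : P)) ∘ (fun q : S3 => (q : ℍ[ℝ])) := rfl
  rw [h7, h6, mfderiv_eq_fderiv] at h3
  exact (congrArg (fun L => L h) h3).symm

theorem DD.mulH {V : Type*} [NormedAddCommGroup V] [NormedSpace ℝ V] {y u : V}
    {g h : V → ℍ[ℝ]} {a b : ℍ[ℝ]} (hg : DD y u g a) (hh : DD y u h b) :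
    DD y u (fun x => g x * h x) (g y * b + a * h y) := by
  obtain ⟨L, hL, rfl⟩ := hg
  obtain ⟨L', hL', rfl⟩ := hh
  exact ⟨_, hL.mul' hL', by simp⟩

/-- The derivative of a coordinate of the action. -/
theorem dact_coord (X : P) (h : ℍ[ℝ]) (i : Fin 3) :
    DD 1 h (fun q => act q X i) (fderiv ℝ (fun q => act q X) 1 h i) := by
  have h1 := (diff_act X 1).hasFDerivAt
  have h2 := (PiLp.proj (𝕜 := ℝ) 2 (fun _ : Fin 3 => ℍ[ℝ]) i).hasFDerivAt.comp
    (1 : ℍ[ℝ]) h1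
  exact ⟨_, h2, rfl⟩

theorem dact_zero (X : P) (h : ℍ[ℝ]) : fderiv ℝ (fun q => act q X) 1 h 0 = h * X 0 := by
  have h1 : DD (1 : ℍ[ℝ]) h (fun q => q) h := ⟨ContinuousLinearMap.id ℝ _, hasFDerivAt_id _, rfl⟩
  have h2 := DD.mulH h1 (DD.const (1 : ℍ[ℝ]) h (X 0))
  have h3 := (dact_coord X h 0).unique h2
  rw [h3]
  simp

theorem dact_one (X : P) (h : ℍ[ℝ]) : fderiv ℝ (fun q => act q X) 1 h 1 = h * X 1 := by
  have h1 : DD (1 : ℍ[ℝ]) h (fun q => q) h := ⟨ContinuousLinearMap.id ℝ _, hasFDerivAt_id _, rfl⟩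
  have h2 := DD.mulH h1 (DD.const (1 : ℍ[ℝ]) h (X 1))
  have h3 := (dact_coord X h 1).unique h2
  rw [h3]
  simp

theorem dact_two (X : P) (h : ℍ[ℝ]) :
    fderiv ℝ (fun q => act q X) 1 h 2 = h * X 2 + X 2 * star h := by
  have h1 : DD (1 : ℍ[ℝ]) h (fun q => q) h := ⟨ContinuousLinearMap.id ℝ _, hasFDerivAt_id _, rfl⟩
  have h2 := DD.mulH h1 (DD.const (1 : ℍ[ℝ]) h (X 2))
  have h4 : DD (1 : ℍ[ℝ]) h (fun q => star q) (star h) := ⟨starH, starH.hasFDerivAt, rfl⟩
  have h5 := DD.mulH h2 h4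
  have h3 := (dact_coord X h 2).unique h5
  rw [h3]
  simp [add_comm]

theorem dorb_inj {x : S10} (hx : Gen x) : Function.Injective (dorb x) := by
  rw [injective_iff_map_eq_zero]
  intro h hh
  have h1 := dorb_eq x h
  rw [hh, map_zero] at h1
  have h2 : dcoe h * co x 0 = 0 :=
    (dact_zero ((x : K) : P) (dcoe h)).symm.trans (congrArg (fun v : P => v 0) h1.symm)
  have h3 : dcoe h * co x 1 = 0 :=
    (dact_one ((x : K) : P) (dcoe h)).symm.trans (congrArg (fun v : P => v 1) h1.symm)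
  have h4 : dcoe h = 0 := by
    rcases hx with h0 | h0
    · exact (mul_eq_zero.mp h2).resolve_right h0
    · exact (mul_eq_zero.mp h3).resolve_right h0
  exact dcoe_inj (by rw [h4, map_zero])

theorem orbitDim_gen {x : S10} (hx : Gen x) : orbitDim E3 E10 S3 x = 3 := by
  rw [orbitDim_eq, LinearMap.finrank_range_of_inj (dorb_inj hx)]
  simp

theorem orbitDim_le (x : S10) : orbitDim E3 E10 S3 x ≤ 3 := by
  rw [orbitDim_eq]
  have := LinearMap.finrank_range_le (dorb x).toLinearMap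
  simpa using this

theorem orbitDim_not_gen {x : S10} (hx : ¬ Gen x) : orbitDim E3 E10 S3 x < 3 := by
  obtain ⟨h0, h1, h2⟩ := not_gen hx
  obtain ⟨h, hh⟩ := dcoe_surj (co_two_re x)
  have hw : co x 2 ≠ 0 := by
    intro h
    rw [h, norm_zero] at h2
    exact zero_ne_one h2
  have hne : h ≠ 0 := by
    rintro rfl
    rw [map_zero] at hh
    exact hw hh.symm
  have h3 : fderiv ℝ (fun q => act q ((x : K) : P)) 1 (dcoe h) = 0 := by
    apply P_ext
    · rw [dact_zero]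
      change dcoe h * co x 0 = 0
      rw [h0, mul_zero]
    · rw [dact_one]
      change dcoe h * co x 1 = 0
      rw [h1, mul_zero]
    · rw [dact_two]
      change dcoe h * co x 2 + co x 2 * star (dcoe h) = 0
      rw [hh, star_imag (co_two_re x)]
      simp
  have h4 := dorb_eq x h
  rw [h3] at h4
  have h5 : dorb x h = 0 := dj_inj ((1 : S3) • x) (by rw [map_zero]; exact h4)
  have h6 : LinearMap.ker (dorb x).toLinearMap ≠ ⊥ := by
    intro hb
    apply hne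
    have : h ∈ LinearMap.ker (dorb x).toLinearMap := h5
    rw [hb] at this
    exact this
  have h7 := LinearMap.finrank_range_add_finrank_ker (dorb x).toLinearMap
  have h8 : 0 < finrank ℝ (LinearMap.ker (dorb x).toLinearMap) := by
    rw [Nat.pos_iff_ne_zero]
    intro h9
    exact h6 (Submodule.finrank_eq_zero.mp h9)
  rw [orbitDim_eq]
  have h9 : finrank ℝ E3 = 3 := by simp
  omega

end Pool.Agent.X180.GM
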