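import Pool.Agent.X180.GM.Act

/-!
Isotropy groups and orbits of the action of the unit quaternions on `S¹⁰`.
-/

set_option autoImplicit false
set_option linter.unusedSectionVars false

namespace Pool.Agent.X180.GM

open scoped ContDiff Manifold InnerProductSpace Topology Quaternion
open Pool.Agent.X180.NC Metric Module

/-- The coordinates of a point of `S¹⁰`. -/
noncomputable def co (x : S10) (i : Fin 3) : ℍ[ℝ] := ((x : K) : P) i

theorem co_smul_zero (q : S3) (x : S10) : co (q • x) 0 = q * co x 0 := rfl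
theorem co_smul_one (q : S3) (x : S10) : co (q • x) 1 = q * co x 1 := rfl
theorem co_smul_two (q : S3) (x : S10) : co (q • x) 2 = q * co x 2 * star (q : ℍ[ℝ]) := rfl

theorem S10_ext {x y : S10} (h0 : co x 0 = co y 0) (h1 : co x 1 = co y 1)
    (h2 : co x 2 = co y 2) : x = y :=
  Subtype.ext (Subtype.ext (P_ext h0 h1 h2))

/-- The points with nonzero component in `ℍ²`. -/
def Gen (x : S10) : Prop := co x 0 ≠ 0 ∨ co x 1 ≠ 0

theorem stab_gen {x : S10} (hx : Gen x) {h : S3} (hh : h • x = x) : h = 1 := by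
  apply Subtype.ext
  change (h : ℍ[ℝ]) = 1
  rcases hx with h0 | h0
  · have h1 : (h : ℍ[ℝ]) * co x 0 = co x 0 := by rw [← co_smul_zero, hh]
    exact mul_right_cancel₀ h0 (by rw [h1, one_mul])
  · have h1 : (h : ℍ[ℝ]) * co x 1 = co x 1 := by rw [← co_smul_one, hh]
    exact mul_right_cancel₀ h0 (by rw [h1, one_mul])

theorem principal_gen {x : S10} (hx : Gen x) : IsPrincipal S3 x := by
  intro y
  refine ⟨1, fun h hh => ?_⟩
  rw [stab_gen hx hh]
  simp

theorem co_two_re (x : S10) : (co x 2).re = 0 := (x : K).2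

theorem norm_co (x : S10) : ‖co x 0‖ ^ 2 + ‖co x 1‖ ^ 2 + ‖co x 2‖ ^ 2 = 1 := by
  have h1 : ‖((x : K) : P)‖ ^ 2 = 1 := by
    have := S10.norm_coe x
    change ‖((x : K) : P)‖ = 1 at this
    rw [this, one_pow]
  rw [PiLp.norm_sq_eq_of_L2, Fin.sum_univ_three] at h1
  exact h1

theorem not_gen {x : S10} (hx : ¬ Gen x) : co x 0 = 0 ∧ co x 1 = 0 ∧ ‖co x 2‖ = 1 := by
  unfold Gen at hx
  push_neg at hx
  obtain ⟨h0, h1⟩ := hx
  have h2 := norm_co x
  rw [h0, h1] at h2
  simp only [norm_zero] at h2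
  refine ⟨h0, h1, ?_⟩
  have h3 : ‖co x 2‖ ^ 2 = 1 := by linarith
  exact (pow_eq_one_iff_of_nonneg (norm_nonneg _) two_ne_zero).mp h3

/-- A general point. -/
noncomputable def pt : S10 := ⟨⟨WithLp.toLp 2 ![1, 0, 0], by
    rw [mem_K]
    rfl⟩, by
  rw [mem_sphere_zero_iff_norm]
  have h : ‖(WithLp.toLp 2 ![1, 0, 0] : P)‖ ^ 2 = 1 := by
    rw [PiLp.norm_sq_eq_of_L2, Fin.sum_univ_three]
    simp
  exact (pow_eq_one_iff_of_nonneg (norm_nonneg _) two_ne_zero).mp h⟩

theorem pt_gen : Gen pt := Or.inl (by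
  change (1 : ℍ[ℝ]) ≠ 0
  exact one_ne_zero)

/-- The square of an imaginary unit quaternion. -/
theorem imag_sq {w : ℍ[ℝ]} (hr : w.re = 0) (hn : ‖w‖ = 1) : w * w = -1 := by
  have h1 : star w = -w := by
    rw [Quaternion.star_eq_neg]
    exact hr
  have h2 : w * star w = 1 := by
    rw [Quaternion.self_mul_star, Quaternion.normSq_eq_norm_mul_self, hn]
    simp
  rw [h1, mul_neg] at h2
  rw [← neg_eq_iff_eq_neg]
  exact h2

theorem star_imag {w : ℍ[ℝ]} (hr : w.re = 0) : star w = -w := by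
  rw [Quaternion.star_eq_neg]
  exact hr

theorem not_principal {x : S10} (hx : ¬ Gen x) : ¬ IsPrincipal S3 x := by
  intro hp
  obtain ⟨h0, h1, h2⟩ := not_gen hx
  have hr := co_two_re x
  obtain ⟨g, hg⟩ := hp pt
  let w : S3 := ⟨co x 2, by rw [mem_sphere_zero_iff_norm, h2]⟩
  have hw : w • x = x := by
    apply S10_ext
    · rw [co_smul_zero, h0, mul_zero]
    · rw [co_smul_one, h1, mul_zero]
    · rw [co_smul_two]
      change co x 2 * co x 2 * star (co x 2) = co x 2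
      rw [imag_sq hr h2, star_imag hr]
      simp
  have h3 := stab_gen pt_gen (hg w hw)
  have h4 : w = 1 := by
    have h5 : g * w = g := by
      have := congrArg (fun z => z * g) h3
      simpa using this
    exact mul_eq_left.mp h5
  have h6 : co x 2 = 1 := congrArg Subtype.val h4
  rw [h6] at hr
  simp at hr

/-- Two imaginary unit quaternions, not opposite, are conjugate. -/
theorem conj_of_ne {w w' : ℍ[ℝ]} (hr : w.re = 0) (hn : ‖w‖ = 1) (hr' : w'.re = 0)
    (hn' : ‖w'‖ = 1) (hne : w' ≠ -w) : ∃ q : S3, (q : ℍ[ℝ]) * w * star (q : ℍ[ℝ]) = w' := by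
  have h1 : 1 - w' * w ≠ 0 := by
    intro h
    apply hne
    have h2 : w' * w = 1 := (sub_eq_zero.mp h).symm
    have h3 : w' * w * w = w := by rw [h2, one_mul]
    rw [mul_assoc, imag_sq hr hn, mul_neg, mul_one] at h3
    rw [← h3, neg_neg]
  set z := 1 - w' * w with hz
  have hzn : 0 < ‖z‖ := norm_pos_iff.mpr h1
  have hzw : z * w = w' * z := by
    rw [hz, sub_mul, mul_sub, one_mul, mul_one, mul_assoc, imag_sq hr hn, ← mul_assoc,
      imag_sq hr' hn']
    simp [sub_eq_add_neg, add_comm]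
  have hqn : ‖(‖z‖⁻¹ : ℝ) • z‖ = 1 := by
    rw [norm_smul, norm_inv, norm_norm, inv_mul_cancel₀ hzn.ne']
  refine ⟨⟨(‖z‖⁻¹ : ℝ) • z, by rw [mem_sphere_zero_iff_norm, hqn]⟩, ?_⟩
  change ((‖z‖⁻¹ : ℝ) • z) * w * star ((‖z‖⁻¹ : ℝ) • z) = w'
  rw [smul_mul_assoc, hzw, ← mul_smul_comm, mul_assoc, Quaternion.self_mul_star,
    Quaternion.normSq_eq_norm_mul_self, hqn]
  simp

/-- The quaternion `i`. -/
def qi : ℍ[ℝ] := ⟨0, 1, 0, 0⟩

/-- The quaternion `j`. -/
def qj : ℍ[ℝ] := ⟨0, 0, 1, 0⟩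

theorem norm_qi : ‖qi‖ = 1 := by
  have h1 := Quaternion.normSq_eq_norm_mul_self qi
  rw [Quaternion.normSq_def'] at h1
  have h2 : ‖qi‖ * ‖qi‖ = 1 := by
    rw [← h1]
    simp [qi]
  nlinarith [norm_nonneg qi]

theorem norm_qj : ‖qj‖ = 1 := by
  have h1 := Quaternion.normSq_eq_norm_mul_self qj
  rw [Quaternion.normSq_def'] at h1
  have h2 : ‖qj‖ * ‖qj‖ = 1 := by
    rw [← h1]
    simp [qj]
  nlinarith [norm_nonneg qj]

/-- Any two imaginary unit quaternions are conjugate. -/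
theorem conj_all {w w' : ℍ[ℝ]} (hr : w.re = 0) (hn : ‖w‖ = 1) (hr' : w'.re = 0)
    (hn' : ‖w'‖ = 1) : ∃ q : S3, (q : ℍ[ℝ]) * w * star (q : ℍ[ℝ]) = w' := by
  by_cases hne : w' ≠ -w
  · exact conj_of_ne hr hn hr' hn' hne
  · push_neg at hne
    -- an intermediate quaternion
    obtain ⟨v, hvr, hvn, h1, h2⟩ : ∃ v : ℍ[ℝ], v.re = 0 ∧ ‖v‖ = 1 ∧ v ≠ -w ∧ v ≠ w := by
      by_cases hw : w.imI = 0
      · refine ⟨qi, rfl, norm_qi, ?_, ?_⟩
        · intro h
          have : (1 : ℝ) = -w.imI := congrArg QuaternionAlgebra.imI h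
          rw [hw] at this
          norm_num at this
        · intro h
          have : (1 : ℝ) = w.imI := congrArg QuaternionAlgebra.imI h
          rw [hw] at this
          norm_num at this
      · refine ⟨qj, rfl, norm_qj, ?_, ?_⟩
        · intro h
          have : (0 : ℝ) = -w.imI := congrArg QuaternionAlgebra.imI h
          apply hw
          linarith
        · intro h
          have : (0 : ℝ) = w.imI := congrArg QuaternionAlgebra.imI h
          exact hw this.symm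
    obtain ⟨q1, hq1⟩ := conj_of_ne hr hn hvr hvn h1
    obtain ⟨q2, hq2⟩ := conj_of_ne hvr hvn hr' hn' (by
      rw [hne]
      intro h
      exact h2 (neg_injective h).symm)
    refine ⟨q2 * q1, ?_⟩
    change ((q2 : ℍ[ℝ]) * q1) * w * star ((q2 : ℍ[ℝ]) * q1) = w'
    rw [star_mul, ← hq2, ← hq1]
    simp only [mul_assoc]

theorem mem_orbit_of_not_gen {x y : S10} (hx : ¬ Gen x) (hy : ¬ Gen y) :
    y ∈ MulAction.orbit S3 x := by
  obtain ⟨hx0, hx1, hx2⟩ := not_gen hx
  obtain ⟨hy0, hy1, hy2⟩ := not_gen hy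
  obtain ⟨q, hq⟩ := conj_all (co_two_re x) hx2 (co_two_re y) hy2
  refine ⟨q, ?_⟩
  apply S10_ext
  · rw [co_smul_zero, hx0, mul_zero, hy0]
  · rw [co_smul_one, hx1, mul_zero, hy1]
  · exact hq

end Pool.Agent.X180.GM
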