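import Pool.Agent.X180.GM.Defs
import Pool.Agent.X180.NC.Bound

/-!
The round metric of a sphere has positive Ricci curvature.
-/

set_option autoImplicit false
set_option linter.unusedSectionVars false

namespace Pool.Agent.X180.GM

open scoped ContDiff Manifold InnerProductSpace Topology
open Pool.Agent.X180.NC

section Congr

variable {V : Type*} [NormedAddCommGroup V] [NormedSpace ℝ V]

theorem Gam_congr {G G' : V → V → V → ℝ} {y : V} (h : G =ᶠ[𝓝 y] G') :
    Gam G =ᶠ[𝓝 y] Gam G' := by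
  filter_upwards [h.eventuallyEq_nhds] with z hz
  have h0 : G z = G' z := hz.self_of_nhds
  have h1 : ∀ a b, fderiv ℝ (fun x => G x a b) z = fderiv ℝ (fun x => G' x a b) z := by
    intro a b
    apply Filter.EventuallyEq.fderiv_eq
    filter_upwards [hz] with w hw
    rw [hw]
  funext u v
  unfold Gam
  simp only [h0, h1]

theorem curv_congr {G G' : V → V → V → ℝ} {y : V} (h : G =ᶠ[𝓝 y] G') :
    curv G y = curv G' y := by
  have h1 := Gam_congr h
  have h0 : Gam G y = Gam G' y := h1.self_of_nhds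
  have h2 : ∀ a b, fderiv ℝ (fun x => Gam G x a b) y = fderiv ℝ (fun x => Gam G' x a b) y := by
    intro a b
    apply Filter.EventuallyEq.fderiv_eq
    filter_upwards [h1] with w hw
    rw [hw]
  funext u v w
  unfold curv
  simp only [h0, h2]

end Congr

variable {V W : Type*} [NormedAddCommGroup V] [InnerProductSpace ℝ V] [FiniteDimensional ℝ V]
  [CompleteSpace V] [NormedAddCommGroup W] [InnerProductSpace ℝ W]
  [FiniteDimensional ℝ W] [CompleteSpace W]

section Local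

variable {F : V → W} {y : V}

theorem Gp_zero (F : V → W) : Gp 0 F = fun y u v => ⟪fderiv ℝ F y u, fderiv ℝ F y v⟫_ℝ := by
  funext y u v
  unfold Gp
  simp

theorem Gp_zero_apply (F : V → W) (y u v : V) :
    Gp 0 F y u v = ⟪fderiv ℝ F y u, fderiv ℝ F y v⟫_ℝ := by
  unfold Gp
  simp

/-- The Gauss equation. -/
theorem gauss (hF : ∀ᶠ x in 𝓝 y, ContDiffAt ℝ ∞ F x)
    (hinj : Function.Injective (fderiv ℝ F y)) (u v : V) :
    ⟪fderiv ℝ F y (curv (Gp 0 F) y u v v), fderiv ℝ F y u⟫_ℝ =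
      ⟪sff F y u u, sff F y v v⟫_ℝ - ⟪sff F y u v, sff F y u v⟫_ℝ := by
  have hF0 := hF.self_of_nhds
  have k1 := key hF hinj 0 u v v u (dd_Wp hF0 0 u v v)
  have k2 := key hF hinj 0 v u v u (dd_Wp hF0 0 v u v)
  rw [normal_term hF0 hinj] at k1 k2
  have g1 := Gam_inner hF0 hinj 0 u (Gam (Gp 0 F) y v v) u
  have g2 := Gam_inner hF0 hinj 0 v (Gam (Gp 0 F) y u v) u
  unfold curv
  rw [map_sub, map_add, map_sub, inner_sub_left, inner_add_left, inner_sub_left, k1, k2, g1, g2]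
  have c7 : ⟪sff F y v v, sff F y u u⟫_ℝ = ⟪sff F y u u, sff F y v v⟫_ℝ := real_inner_comm _ _
  unfold Wp
  simp only [inner_add_left, inner_sub_left, real_inner_smul_left]
  rw [symm3 hF0 v u, sff_symm hF0 v u, c7]
  ring

/-- The second fundamental form of a map of maximal rank into the unit sphere. -/
theorem sff_sphere (hF : ∀ᶠ x in 𝓝 y, ContDiffAt ℝ ∞ F x)
    (hinj : Function.Injective (fderiv ℝ F y)) (hS : ∀ᶠ x in 𝓝 y, ‖F x‖ = 1)
    (hdim : Module.finrank ℝ W = Module.finrank ℝ V + 1) (u v : V) :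
    sff F y u v = -⟪fderiv ℝ F y u, fderiv ℝ F y v⟫_ℝ • F y := by
  have hF0 := hF.self_of_nhds
  have hS0 : ‖F y‖ = 1 := hS.self_of_nhds
  -- `F` is orthogonal to `dF`
  have h1 : ∀ᶠ x in 𝓝 y, ∀ w, ⟪F x, fderiv ℝ F x w⟫_ℝ = 0 := by
    filter_upwards [hF, hS.eventually_nhds] with x hx hSx w
    have h2 : (fun z => ⟪F z, F z⟫_ℝ) =ᶠ[𝓝 x] fun _ => (1 : ℝ) := by
      filter_upwards [hSx] with z hz
      rw [real_inner_self_eq_norm_sq, hz, one_pow]
    have h3 := ((dd0 hx w).inner (dd0 hx w)).unique ((DD.const x w (1 : ℝ)).congr h2)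
    rw [real_inner_comm (F x) (fderiv ℝ F x w)] at h3
    linarith
  have h1y : ∀ w, ⟪F y, fderiv ℝ F y w⟫_ℝ = 0 := h1.self_of_nhds
  have h4 : ⟪F y, fderiv ℝ (fderiv ℝ F) y u v⟫_ℝ = -⟪fderiv ℝ F y u, fderiv ℝ F y v⟫_ℝ := by
    have h5 : (fun z => ⟪F z, fderiv ℝ F z v⟫_ℝ) =ᶠ[𝓝 y] fun _ => (0 : ℝ) := by
      filter_upwards [h1] with z hz
      exact hz v
    have h6 := ((dd0 hF0 u).inner ((dd1 hF0 u).clm_const v)).unique
      ((DD.const y u (0 : ℝ)).congr h5)
    linarith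
  -- the orthogonal complement of the range is spanned by `F y`
  have hFn : F y ≠ 0 := by
    intro h
    rw [h, norm_zero] at hS0
    exact zero_ne_one hS0
  set K : Submodule ℝ W := LinearMap.range (fderiv ℝ F y : V →ₗ[ℝ] W) with hK
  have hKdim : Module.finrank ℝ K = Module.finrank ℝ V := LinearMap.finrank_range_of_inj hinj
  have hKo : Module.finrank ℝ Kᗮ = 1 := by
    have := Submodule.finrank_add_finrank_orthogonal K
    omega
  have hmem : F y ∈ Kᗮ := by
    rw [Submodule.mem_orthogonal]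
    rintro _ ⟨w, rfl⟩
    change ⟪fderiv ℝ F y w, F y⟫_ℝ = 0
    rw [real_inner_comm]
    exact h1y w
  have hA : sff F y u v ∈ Kᗮ := by
    unfold sff
    exact Submodule.starProjection_apply_mem _ _
  obtain ⟨c, hc⟩ : ∃ c : ℝ, c • F y = sff F y u v := by
    have h7 : (⟨F y, hmem⟩ : Kᗮ) ≠ 0 := by
      intro h
      exact hFn (congrArg Subtype.val h)
    obtain ⟨c, hc⟩ := exists_smul_eq_of_finrank_eq_one hKo h7 ⟨sff F y u v, hA⟩
    exact ⟨c, congrArg Subtype.val hc⟩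
  have h8 : ⟪F y, sff F y u v⟫_ℝ = c := by
    rw [← hc, real_inner_smul_right, real_inner_self_eq_norm_sq, hS0]
    ring
  have h9 : ⟪F y, sff F y u v⟫_ℝ = ⟪F y, fderiv ℝ (fderiv ℝ F) y u v⟫_ℝ := by
    rw [sff_eq hinj, inner_sub_right, h1y, sub_zero]
  rw [← hc, ← h8, h9, h4]

/-- Parseval's identity for frames of the induced metric. -/
theorem parseval {n : ℕ} (hn : Module.finrank ℝ V = n)
    (hinj : Function.Injective (fderiv ℝ F y)) {e : Fin n → V}
    (he : ∀ i j, ⟪fderiv ℝ F y (e i), fderiv ℝ F y (e j)⟫_ℝ = if i = j then 1 else 0) (u : V) :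
    ∑ i, ⟪fderiv ℝ F y (e i), fderiv ℝ F y u⟫_ℝ ^ 2 =
      ⟪fderiv ℝ F y u, fderiv ℝ F y u⟫_ℝ := by
  set B := fderiv ℝ F y with hB
  have hlin : LinearIndependent ℝ e := by
    rw [Fintype.linearIndependent_iff]
    intro c hc i
    have h1 : ⟪B (e i), B (∑ j, c j • e j)⟫_ℝ = c i := by
      rw [map_sum, inner_sum]
      simp only [map_smul, real_inner_smul_right, he]
      simp
    rw [hc, map_zero, inner_zero_right] at h1
    exact h1.symm
  let b := basisOfLinearIndependentOfCardEqFinrank' e hlin (by rw [Fintype.card_fin, hn])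
  have hb : ∀ i, b i = e i := fun i => by
    simp [b]
  have hexp : u = ∑ j, b.repr u j • e j := by
    conv_lhs => rw [← b.sum_repr u]
    simp only [hb]
  have hc : ∀ i, ⟪B (e i), B u⟫_ℝ = b.repr u i := by
    intro i
    conv_lhs => rw [hexp, map_sum, inner_sum]
    simp only [map_smul, real_inner_smul_right, he]
    simp
  have hexpB : B u = ∑ j, b.repr u j • B (e j) := by
    conv_lhs => rw [hexp, map_sum]
    simp only [map_smul]
  have h2 : ⟪B u, B u⟫_ℝ = ∑ i, b.repr u i * ⟪B (e i), B u⟫_ℝ := by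
    calc ⟪B u, B u⟫_ℝ = ⟪∑ j, b.repr u j • B (e j), B u⟫_ℝ := by rw [← hexpB]
      _ = _ := by
        rw [sum_inner]
        simp only [real_inner_smul_left]
  rw [h2]
  refine Finset.sum_congr rfl fun i _ => ?_
  rw [hc, sq]

/-- The Ricci curvature of the metric induced on a sphere. -/
theorem ric_sphere (hF : ∀ᶠ x in 𝓝 y, ContDiffAt ℝ ∞ F x)
    (hinj : Function.Injective (fderiv ℝ F y)) (hS : ∀ᶠ x in 𝓝 y, ‖F x‖ = 1)
    (hdim : Module.finrank ℝ W = Module.finrank ℝ V + 1)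
    {n : ℕ} (hn : Module.finrank ℝ V = n) {e : Fin n → V} (he : IsFrame (Gp 0 F) y e) (u : V) :
    ric (Gp 0 F) y e u = (n - 1) * ⟪fderiv ℝ F y u, fderiv ℝ F y u⟫_ℝ := by
  have he' : ∀ i j, ⟪fderiv ℝ F y (e i), fderiv ℝ F y (e j)⟫_ℝ = if i = j then 1 else 0 := by
    intro i j
    rw [← he i j, Gp_zero_apply]
  have hS0 : ‖F y‖ = 1 := hS.self_of_nhds
  have hFF : ⟪F y, F y⟫_ℝ = 1 := by
    rw [real_inner_self_eq_norm_sq, hS0, one_pow]
  unfold ric
  have h1 : ∀ i, Gp 0 F y (curv (Gp 0 F) y (e i) u u) (e i) =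
      ⟪fderiv ℝ F y u, fderiv ℝ F y u⟫_ℝ - ⟪fderiv ℝ F y (e i), fderiv ℝ F y u⟫_ℝ ^ 2 := by
    intro i
    have h2 : Gp 0 F y (curv (Gp 0 F) y (e i) u u) (e i) =
        ⟪fderiv ℝ F y (curv (Gp 0 F) y (e i) u u), fderiv ℝ F y (e i)⟫_ℝ := Gp_zero_apply _ _ _ _
    rw [h2, gauss hF hinj, sff_sphere hF hinj hS hdim, sff_sphere hF hinj hS hdim,
      sff_sphere hF hinj hS hdim, he' i i, if_pos rfl]
    simp only [real_inner_smul_left, real_inner_smul_right, hFF]
    ring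
  rw [Finset.sum_congr rfl fun i _ => h1 i, Finset.sum_sub_distrib, parseval hn hinj he' u,
    Finset.sum_const, Finset.card_univ, Fintype.card_fin, nsmul_eq_mul]
  ring

end Local

end Pool.Agent.X180.GM
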