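import Pool.Agent.X180.GM.Induced

/-!
The unit quaternions are a compact Lie group, acting on a sphere of dimension 10.
-/

set_option autoImplicit false
set_option linter.unusedSectionVars false

namespace Pool.Agent.X180.GM

open scoped ContDiff Manifold InnerProductSpace Topology Quaternion
open Pool.Agent.X180.NC Metric Module

instance factH : Fact (finrank ℝ ℍ[ℝ] = 3 + 1) := ⟨Quaternion.finrank_eq_four⟩

/-- The unit quaternions. -/
abbrev S3 : Type := sphere (0 : ℍ[ℝ]) 1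

theorem S3.norm_coe (q : S3) : ‖(q : ℍ[ℝ])‖ = 1 := by
  have := q.2
  rwa [mem_sphere_zero_iff_norm] at this

theorem S3.coe_inv (q : S3) : ((q⁻¹ : S3) : ℍ[ℝ]) = star (q : ℍ[ℝ]) := by
  have h1 : ((q⁻¹ : S3) : ℍ[ℝ]) = (q : ℍ[ℝ])⁻¹ := rfl
  rw [h1, Quaternion.inv_def, Quaternion.normSq_eq_norm_mul_self, S3.norm_coe]
  simp

/-- Conjugation of quaternions as a continuous linear map. -/
noncomputable def starH : ℍ[ℝ] →L[ℝ] ℍ[ℝ] :=
  LinearMap.toContinuousLinearMap
    { toFun := fun q => star q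
      map_add' := fun a b => star_add a b
      map_smul' := fun c a => by
        simp }

theorem starH_apply (q : ℍ[ℝ]) : starH q = star q := rfl

noncomputable instance : LieGroup (𝓡 3) ω S3 where
  contMDiff_mul := by
    apply ContMDiff.codRestrict_sphere
    let c : S3 → ℍ[ℝ] := (↑)
    have h₂ : ContMDiff (𝓘(ℝ, ℍ[ℝ]).prod 𝓘(ℝ, ℍ[ℝ])) 𝓘(ℝ, ℍ[ℝ]) ω
        fun z : ℍ[ℝ] × ℍ[ℝ] => z.fst * z.snd := by
      rw [contMDiff_iff]
      exact ⟨continuous_mul, fun x y => contDiff_mul.contDiffOn⟩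
    suffices h₁ : ContMDiff _ _ _ (Prod.map c c) from
      h₂.comp h₁
    apply ContMDiff.prodMap <;> exact contMDiff_coe_sphere
  contMDiff_inv := by
    have h1 : ContDiff ℝ ω (fun q : ℍ[ℝ] => star q) := starH.contDiff
    have h2 : ContMDiff (𝓡 3) 𝓘(ℝ, ℍ[ℝ]) ω (fun q : S3 => star (q : ℍ[ℝ])) :=
      h1.contMDiff.comp contMDiff_coe_sphere
    have h3 : ∀ q : S3, star (q : ℍ[ℝ]) ∈ sphere (0 : ℍ[ℝ]) 1 := fun q => by
      rw [← S3.coe_inv]
      exact (q⁻¹).2
    have h4 := ContMDiff.codRestrict_sphere (n := 3) h2 h3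
    have h5 : (fun q : S3 => q⁻¹) = Set.codRestrict _ _ h3 := by
      funext q
      apply Subtype.ext
      exact S3.coe_inv q
    rw [h5]
    exact h4

end Pool.Agent.X180.GM
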